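import Pool.Agent.Helper94.DG.Defs

/-!
# Digests: the instances and the cancellation of the votes over the cube
-/

set_option autoImplicit false

open Finset

namespace Pool.Agent.Helper21.DG

open Pool.Agent.Helper22.ETModel Pool.Agent.Helper8.VT Pool.Agent.Helper53.TC5
open Pool.Agent.Helper94.DG

/-- The cells of the instances: constant, or one entry of one of the arrays. -/
theorem wgt_cases {m n : ℕ} (L : ℕ) (h : 12 * m ≤ n) (u v : Fin n)
    (_huv : (u : ℕ) % 3 ≤ (v : ℕ) % 3) :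
    (∀ S : Fin 4 → Arr m L, wgt S u v = 10 * L) ∨ ∃ (q : Fin 4) (i j : Fin m),
      (u = vtx h 0 q i ∧ v = vtx h 1 q j ∧
        ∀ S : Fin 4 → Arr m L, wgt S u v = (((S q).1 i j : ℕ) : ℤ)) ∨
      (u = vtx h 1 q i ∧ v = vtx h 2 q j ∧
        ∀ S : Fin 4 → Arr m L, wgt S u v = (((S q).2.1 i j : ℕ) : ℤ)) ∨
      (u = vtx h 0 q i ∧ v = vtx h 2 q j ∧
        ∀ S : Fin 4 → Arr m L, wgt S u v = -(((S q).2.2 i j : ℕ) : ℤ)) := by
  by_cases hh : (u : ℕ) / 12 < m ∧ (v : ℕ) / 12 < m ∧ ((u : ℕ) / 3) % 4 = ((v : ℕ) / 3) % 4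
  · by_cases h1 : (u : ℕ) % 3 = 0 ∧ (v : ℕ) % 3 = 1
    · refine Or.inr ⟨⟨((u : ℕ) / 3) % 4, Nat.mod_lt _ (by norm_num)⟩, ⟨_, hh.1⟩, ⟨_, hh.2.1⟩,
        Or.inl ⟨?_, ?_, ?_⟩⟩
      · apply Fin.ext; simp only [vtx]; simp; omega
      · apply Fin.ext; simp only [vtx]; simp; omega
      · intro S
        rw [wgt, dif_pos hh, if_pos h1]
    · by_cases h2 : (u : ℕ) % 3 = 1 ∧ (v : ℕ) % 3 = 2
      · refine Or.inr ⟨⟨((u : ℕ) / 3) % 4, Nat.mod_lt _ (by norm_num)⟩, ⟨_, hh.1⟩, ⟨_, hh.2.1⟩,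
          Or.inr (Or.inl ⟨?_, ?_, ?_⟩)⟩
        · apply Fin.ext; simp only [vtx]; simp; omega
        · apply Fin.ext; simp only [vtx]; simp; omega
        · intro S
          rw [wgt, dif_pos hh, if_neg h1, if_pos h2]
      · by_cases h3 : (u : ℕ) % 3 = 0 ∧ (v : ℕ) % 3 = 2
        · refine Or.inr ⟨⟨((u : ℕ) / 3) % 4, Nat.mod_lt _ (by norm_num)⟩, ⟨_, hh.1⟩, ⟨_, hh.2.1⟩,
            Or.inr (Or.inr ⟨?_, ?_, ?_⟩)⟩
          · apply Fin.ext; simp only [vtx]; simp; omega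
          · apply Fin.ext; simp only [vtx]; simp; omega
          · intro S
            rw [wgt, dif_pos hh, if_neg h1, if_neg h2, if_pos h3]
        · left
          intro S
          rw [wgt, dif_pos hh, if_neg h1, if_neg h2, if_neg h3]
  · left
    intro S
    rw [wgt, dif_neg hh]

theorem inst_tripartite {m L n : ℕ} (S : Fin 4 → Arr m L) : Tripartite (inst n S) := by
  intro u v
  simp [inst, flg]

theorem wgt_abs {m L n : ℕ} (S : Fin 4 → Arr m L) (u v : Fin n) : |wgt S u v| ≤ 10 * L := by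
  unfold wgt
  split_ifs with h h1 h2 h3
  · rw [abs_of_nonneg (by positivity)]
    have := ((S ⟨(u / 3) % 4, Nat.mod_lt _ (by norm_num)⟩).1 ⟨u / 12, h.1⟩ ⟨v / 12, h.2.1⟩).2
    omega
  · rw [abs_of_nonneg (by positivity)]
    have := ((S ⟨(u / 3) % 4, Nat.mod_lt _ (by norm_num)⟩).2.1 ⟨u / 12, h.1⟩ ⟨v / 12, h.2.1⟩).2
    omega
  · rw [abs_neg, abs_of_nonneg (by positivity)]
    have := ((S ⟨(u / 3) % 4, Nat.mod_lt _ (by norm_num)⟩).2.2 ⟨u / 12, h.1⟩ ⟨v / 12, h.2.1⟩).2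
    omega
  · rw [abs_of_nonneg (by positivity)]
  · rw [abs_of_nonneg (by positivity)]

theorem inst_valid {m L n : ℕ} (hn : 10 * L ≤ n ^ 300) (S : Fin 4 → Arr m L) :
    (inst n S).Valid := by
  refine ⟨?_, ?_, ?_, ?_⟩
  · intro i j
    simp only [inst, flg, decide_eq_decide]
    exact ne_comm
  · intro i
    simp [inst, flg]
  · intro i j
    simp only [inst]
    rcases lt_trichotomy ((i : ℕ) % 3) ((j : ℕ) % 3) with h | h | h
    · rw [if_pos h.le, if_neg (by omega)]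
    · rw [if_pos h.le, if_pos h.ge]
      have hne : ∀ a b : Fin n, (a : ℕ) % 3 = (b : ℕ) % 3 → wgt S a b = 10 * L := by
        intro a b hab
        unfold wgt
        split_ifs with h0 h1 h2 h3
        · omega
        · omega
        · omega
        · rfl
        · rfl
      rw [hne i j h, hne j i h.symm]
    · rw [if_neg (by omega), if_pos h.le]
  · intro i j
    have hb : ((10 * L : ℕ) : ℤ) ≤ ((n ^ 300 : ℕ) : ℤ) := by exact_mod_cast hn
    push_cast at hb
    simp only [inst]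
    split_ifs
    · exact (wgt_abs S i j).trans hb
    · exact (wgt_abs S j i).trans hb

/-! ### The corners of one part -/

theorem upd_off {m : ℕ} {α : Type} (X : Fin m → Fin m → α) (i j : Fin m) (z : α) (u v : Fin m)
    (h : ¬ (u = i ∧ v = j)) : upd X i j z u v = X u v := if_neg h

theorem upd_on {m : ℕ} {α : Type} (X : Fin m → Fin m → α) (i j : Fin m) (z : α) :
    upd X i j z i j = z := if_pos ⟨rfl, rfl⟩

theorem eq_of_ker {α : Type} [Fintype α] (δ : α → ℕ) (x x' : α) (h : ker δ x x' ≠ 0) :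
    δ x = δ x' := by
  by_contra hne
  exact h (if_neg hne)

theorem corner_off1 {m L : ℕ} (d d' : Fin 3 → Bool) (D : Data m L) (i j : Fin m)
    (h : d 0 = d' 0 ∨ ¬ (i = D.2.1.1 ∧ j = D.2.1.2.1)) :
    (corner d D).1 i j = (corner d' D).1 i j := by
  simp only [corner]
  rcases h with h | h
  · rw [h]
  · split_ifs <;> simp only [upd_off _ _ _ _ _ _ h]

theorem corner_off2 {m L : ℕ} (d d' : Fin 3 → Bool) (D : Data m L) (i j : Fin m)
    (h : d 1 = d' 1 ∨ ¬ (i = D.2.1.2.1 ∧ j = D.2.1.2.2)) :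
    (corner d D).2.1 i j = (corner d' D).2.1 i j := by
  simp only [corner]
  rcases h with h | h
  · rw [h]
  · split_ifs <;> simp only [upd_off _ _ _ _ _ _ h]

theorem corner_off3 {m L : ℕ} (d d' : Fin 3 → Bool) (D : Data m L) (i j : Fin m)
    (h : d 2 = d' 2 ∨ ¬ (i = D.2.1.1 ∧ j = D.2.1.2.2)) :
    (corner d D).2.2 i j = (corner d' D).2.2 i j := by
  simp only [corner]
  rcases h with h | h
  · rw [h]
  · rw [upd_off _ _ _ _ _ _ h, upd_off _ _ _ _ _ _ h]

theorem ker_of_mass {m L : ℕ} (a b : Fin m → Fin m → Fin L → ℕ)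
    (c : Fin m → Fin m → Fin (2 * L) → ℕ) (D : Data m L) (h : mass a b c D ≠ 0) :
    a D.2.1.1 D.2.1.2.1 (D.1.1 D.2.1.1 D.2.1.2.1) = a D.2.1.1 D.2.1.2.1 D.2.2.1 ∧
    b D.2.1.2.1 D.2.1.2.2 (D.1.2.1 D.2.1.2.1 D.2.1.2.2) = b D.2.1.2.1 D.2.1.2.2 D.2.2.2.1 ∧
    c D.2.1.1 D.2.1.2.2 (add (D.1.1 D.2.1.1 D.2.1.2.1) (D.1.2.1 D.2.1.2.1 D.2.1.2.2)) =
      c D.2.1.1 D.2.1.2.2 D.2.2.2.2 := by
  have h1 := right_ne_zero_of_mul h
  have h2 := left_ne_zero_of_mul h1
  exact ⟨eq_of_ker _ _ _ (left_ne_zero_of_mul h2), eq_of_ker _ _ _ (right_ne_zero_of_mul h2),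
    eq_of_ker _ _ _ (right_ne_zero_of_mul h1)⟩

theorem corner_dig {m L : ℕ} (a b : Fin m → Fin m → Fin L → ℕ)
    (c : Fin m → Fin m → Fin (2 * L) → ℕ) (D : Data m L) (h : mass a b c D ≠ 0)
    (d d' : Fin 3 → Bool) (i j : Fin m) :
    a i j ((corner d D).1 i j) = a i j ((corner d' D).1 i j) ∧
    b i j ((corner d D).2.1 i j) = b i j ((corner d' D).2.1 i j) ∧
    c i j ((corner d D).2.2 i j) = c i j ((corner d' D).2.2 i j) := by
  obtain ⟨h1, h2, h3⟩ := ker_of_mass a b c D h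
  refine ⟨?_, ?_, ?_⟩
  · by_cases hh : i = D.2.1.1 ∧ j = D.2.1.2.1
    · obtain ⟨rfl, rfl⟩ := hh
      simp only [corner]
      split_ifs <;> simp only [upd_on] <;> first | rfl | exact h1 | exact h1.symm
    · rw [corner_off1 d d' D i j (Or.inr hh)]
  · by_cases hh : i = D.2.1.2.1 ∧ j = D.2.1.2.2
    · obtain ⟨rfl, rfl⟩ := hh
      simp only [corner]
      split_ifs <;> simp only [upd_on] <;> first | rfl | exact h2 | exact h2.symm
    · rw [corner_off2 d d' D i j (Or.inr hh)]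
  · by_cases hh : i = D.2.1.1 ∧ j = D.2.1.2.2
    · obtain ⟨rfl, rfl⟩ := hh
      simp only [corner, upd_on]
      split_ifs <;> first | rfl | exact h3 | exact h3.symm
    · rw [corner_off3 d d' D i j (Or.inr hh)]

/-! ### The cancellation -/

/-- The vote is the same at two corners of the cube that differ only in the side `s`, if `Q` misses
the planted cells of the side `s`. -/
theorem same {m L n : ℕ} (h : 12 * m ≤ n) (hn : 10 * L ≤ n ^ 300) {K : Fin n → Fin n → ℕ}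
    (δ : ∀ u v : Fin n, ℤ → Fin (K u v)) (Q : Finset (Fin n × Fin n)) (H : Inst n → ℝ)
    (hH : Sees (flg n) δ Q H) (D : Fin 4 → Data m L)
    (hD : ∀ q, mass (fun i j x => (δ (vtx h 0 q i) (vtx h 1 q j) ((x : ℕ) : ℤ) : ℕ))
      (fun i j x => (δ (vtx h 1 q i) (vtx h 2 q j) ((x : ℕ) : ℤ) : ℕ))
      (fun i j x => (δ (vtx h 0 q i) (vtx h 2 q j) (-((x : ℕ) : ℤ)) : ℕ)) (D q) ≠ 0)
    (v v' : Fin 3 → Bool)
    (h0 : v 0 = v' 0 ∨ ∀ q, ¬ Has Q (vtx h 0 q (D q).2.1.1) (vtx h 1 q (D q).2.1.2.1))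
    (h1 : v 1 = v' 1 ∨ ∀ q, ¬ Has Q (vtx h 1 q (D q).2.1.2.1) (vtx h 2 q (D q).2.1.2.2))
    (h2 : v 2 = v' 2 ∨ ∀ q, ¬ Has Q (vtx h 0 q (D q).2.1.1) (vtx h 2 q (D q).2.1.2.2)) :
    H (inst n (cube v D)) = H (inst n (cube v' D)) := by
  have exact1 : ∀ x y : Fin n, (x : ℕ) % 3 ≤ (y : ℕ) % 3 → (Has Q x y ∨ (x : ℕ) % 3 = (y : ℕ) % 3) →
      wgt (cube v D) x y = wgt (cube v' D) x y := by
    intro x y hxy hQ
    rcases wgt_cases L h x y hxy with hc | ⟨q, i, j, hc | hc | hc⟩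
    · rw [hc, hc]
    · obtain ⟨hx, hy, hc⟩ := hc
      have hx3 : (x : ℕ) % 3 = 0 := by rw [hx]; simp only [vtx]; simp; omega
      have hy3 : (y : ℕ) % 3 = 1 := by rw [hy]; simp only [vtx]; simp; omega
      have hQ' : Has Q x y := by rcases hQ with hQ | hQ; exacts [hQ, by omega]
      rw [hc, hc]
      have : (cube v D q).1 i j = (cube v' D q).1 i j := by
        apply corner_off1
        rcases h0 with h0 | h0
        · left; simp only [h0]
        · right
          rintro ⟨rfl, rfl⟩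
          exact h0 q (by rw [← hx, ← hy]; exact hQ')
      rw [this]
    · obtain ⟨hx, hy, hc⟩ := hc
      have hx3 : (x : ℕ) % 3 = 1 := by rw [hx]; simp only [vtx]; simp; omega
      have hy3 : (y : ℕ) % 3 = 2 := by rw [hy]; simp only [vtx]; simp; omega
      have hQ' : Has Q x y := by rcases hQ with hQ | hQ; exacts [hQ, by omega]
      rw [hc, hc]
      have : (cube v D q).2.1 i j = (cube v' D q).2.1 i j := by
        apply corner_off2
        rcases h1 with h1 | h1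
        · left; simp only [h1]
        · right
          rintro ⟨rfl, rfl⟩
          exact h1 q (by rw [← hx, ← hy]; exact hQ')
      rw [this]
    · obtain ⟨hx, hy, hc⟩ := hc
      have hx3 : (x : ℕ) % 3 = 0 := by rw [hx]; simp only [vtx]; simp; omega
      have hy3 : (y : ℕ) % 3 = 2 := by rw [hy]; simp only [vtx]; simp; omega
      have hQ' : Has Q x y := by rcases hQ with hQ | hQ; exacts [hQ, by omega]
      rw [hc, hc]
      have : (cube v D q).2.2 i j = (cube v' D q).2.2 i j := by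
        apply corner_off3
        rcases h2 with h2 | h2
        · left; simp only [h2]
        · right
          rintro ⟨rfl, rfl⟩
          exact h2 q (by rw [← hx, ← hy]; exact hQ')
      rw [this]
  apply hH (inst n (cube v D)).wt (inst n (cube v' D)).wt (inst_valid hn _) (inst_valid hn _)
  · intro x y hxy
    simp only [inst, if_pos hxy.le]
    rcases wgt_cases L h x y hxy.le with hc | ⟨q, i, j, hc | hc | hc⟩
    · rw [hc, hc]
    · obtain ⟨hx, hy, hc⟩ := hc
      rw [hc, hc, hx, hy]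
      exact Fin.ext (corner_dig _ _ _ (D q) (hD q) _ _ i j).1
    · obtain ⟨hx, hy, hc⟩ := hc
      rw [hc, hc, hx, hy]
      exact Fin.ext (corner_dig _ _ _ (D q) (hD q) _ _ i j).2.1
    · obtain ⟨hx, hy, hc⟩ := hc
      rw [hc, hc, hx, hy]
      exact Fin.ext (corner_dig _ _ _ (D q) (hD q) _ _ i j).2.2
  · intro x y hxy
    simp only [inst]
    by_cases hle : (x : ℕ) % 3 ≤ (y : ℕ) % 3
    · rw [if_pos hle, if_pos hle]
      exact exact1 x y hle hxy
    · rw [if_neg hle, if_neg hle]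
      refine exact1 y x (by omega) ?_
      rcases hxy with hxy | hxy
      · exact Or.inl (Or.symm hxy)
      · exact Or.inr hxy.symm

theorem sgn_update (v : Fin 3 → Bool) (s : Fin 3) :
    sgn (Function.update v s (!v s)) = - sgn v := by
  fin_cases s <;> simp only [sgn, Fin.prod_univ_three] <;>
    rcases h0 : v 0 <;> rcases h1 : v 1 <;> rcases h2 : v 2 <;> simp [Function.update, h0, h1, h2]

/-- A function that does not change when the coordinate `s` is flipped has the signed sum `0`. -/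
theorem signed (g : (Fin 3 → Bool) → ℝ) (s : Fin 3)
    (hg : ∀ v, g (Function.update v s (!v s)) = g v) : ∑ v : Fin 3 → Bool, sgn v * g v = 0 := by
  refine Finset.sum_involution (fun v _ => Function.update v s (!v s)) ?_ ?_ ?_ ?_
  · intro v _
    rw [sgn_update, hg v]
    ring
  · intro v _ _ heq
    have := congrFun heq s
    simp at this
  · intro v _
    exact mem_univ _
  · intro v _
    funext t
    by_cases ht : t = s
    · subst ht; simp
    · simp [Function.update_of_ne ht]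

theorem cancel {m L n : ℕ} (h : 12 * m ≤ n) (hn : 10 * L ≤ n ^ 300) {K : Fin n → Fin n → ℕ}
    (δ : ∀ u v : Fin n, ℤ → Fin (K u v)) (Q : Finset (Fin n × Fin n)) (H : Inst n → ℝ)
    (hH : Sees (flg n) δ Q H) (D : Fin 4 → Data m L)
    (hD : ∀ q, mass (fun i j x => (δ (vtx h 0 q i) (vtx h 1 q j) ((x : ℕ) : ℤ) : ℕ))
      (fun i j x => (δ (vtx h 1 q i) (vtx h 2 q j) ((x : ℕ) : ℤ) : ℕ))
      (fun i j x => (δ (vtx h 0 q i) (vtx h 2 q j) (-((x : ℕ) : ℤ)) : ℕ)) (D q) ≠ 0)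
    (hQ : (∀ q, ¬ Has Q (vtx h 0 q (D q).2.1.1) (vtx h 1 q (D q).2.1.2.1)) ∨
      (∀ q, ¬ Has Q (vtx h 1 q (D q).2.1.2.1) (vtx h 2 q (D q).2.1.2.2)) ∨
      (∀ q, ¬ Has Q (vtx h 0 q (D q).2.1.1) (vtx h 2 q (D q).2.1.2.2))) :
    ∑ v : Fin 3 → Bool, sgn v * H (inst n (cube v D)) = 0 := by
  rcases hQ with hQ | hQ | hQ
  · refine signed _ 0 fun v => same h hn δ Q H hH D hD _ _ (Or.inr hQ) (Or.inl ?_) (Or.inl ?_)
    · exact Function.update_of_ne (by decide) _ _
    · exact Function.update_of_ne (by decide) _ _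
  · refine signed _ 1 fun v => same h hn δ Q H hH D hD _ _ (Or.inl ?_) (Or.inr hQ) (Or.inl ?_)
    · exact Function.update_of_ne (by decide) _ _
    · exact Function.update_of_ne (by decide) _ _
  · refine signed _ 2 fun v => same h hn δ Q H hH D hD _ _ (Or.inl ?_) (Or.inl ?_) (Or.inr hQ)
    · exact Function.update_of_ne (by decide) _ _
    · exact Function.update_of_ne (by decide) _ _

end Pool.Agent.Helper21.DG
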