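import Pool.Agent.Helper94.DG.Defs2
import Pool.Agent.Helper5.UV.Tri

/-!
# Digests and adaptive voters: counting with weights
-/

set_option autoImplicit false

open Finset

namespace Pool.Agent.Helper21.DG

open Pool.Agent.Helper94.DG

/-- The edge of the side `s` of the triangle `T`. -/
def pr {m : ℕ} (s : Fin 3) (T : Tri m) : Fin m × Fin m :=
  match s with
  | 0 => (T.1, T.2.1)
  | 1 => (T.2.1, T.2.2)
  | 2 => (T.1, T.2.2)

/-- The triangles with the edge `e` of the side `s`. -/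
def fib {m : ℕ} (s : Fin 3) (e : Fin m × Fin m) (k : Fin m) : Tri m :=
  match s with
  | 0 => (e.1, e.2, k)
  | 1 => (k, e.1, e.2)
  | 2 => (e.1, k, e.2)

theorem pr_fib {m : ℕ} (s : Fin 3) (e : Fin m × Fin m) (k : Fin m) : pr s (fib s e k) = e := by
  fin_cases s <;> rfl

theorem pr_inj {m : ℕ} {s t : Fin 3} (hst : s ≠ t) {T T' : Tri m} (h1 : pr s T = pr s T')
    (h2 : pr t T = pr t T') : T = T' := by
  obtain ⟨i, j, k⟩ := T
  obtain ⟨i', j', k'⟩ := T'
  fin_cases s <;> fin_cases t <;> simp_all [pr]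

theorem sum_fib {m : ℕ} (s : Fin 3) (f : Tri m → ℝ) :
    ∑ T : Tri m, f T = ∑ e : Fin m × Fin m, ∑ k : Fin m, f (fib s e k) := by
  have h0 : ∑ T : Tri m, f T = ∑ i : Fin m, ∑ j : Fin m, ∑ k : Fin m, f (i, j, k) := by
    rw [Fintype.sum_prod_type]
    exact sum_congr rfl fun i _ => Fintype.sum_prod_type _
  rw [h0]
  fin_cases s
  · rw [Fintype.sum_prod_type]
    rfl
  · rw [Fintype.sum_prod_type, sum_comm]
    refine sum_congr rfl fun j _ => ?_
    rw [sum_comm]
    rfl
  · rw [Fintype.sum_prod_type]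
    refine sum_congr rfl fun i _ => ?_
    rw [sum_comm]
    rfl

open Classical in
/-- The indicator of `pr s T ∈ E`. -/
noncomputable def ind {m : ℕ} (E : Finset (Fin m × Fin m)) (s : Fin 3) (T : Tri m) : ℝ :=
  if pr s T ∈ E then 1 else 0

theorem ind_nonneg {m : ℕ} (E : Finset (Fin m × Fin m)) (s : Fin 3) (T : Tri m) :
    0 ≤ ind E s T := by
  unfold ind; split_ifs <;> norm_num

theorem ind_le_one {m : ℕ} (E : Finset (Fin m × Fin m)) (s : Fin 3) (T : Tri m) :
    ind E s T ≤ 1 := by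
  unfold ind; split_ifs <;> norm_num

section one

variable {m : ℕ} (g : Tri m → ℝ) (F α β : ℝ) (h0 : ∀ T, 0 ≤ g T) (hF : ∑ T, g T ≤ F)
  (hα : ∀ s e, ∑ k, g (fib s e k) ≤ α) (hβ : ∀ T, g T ≤ β)

include hα in
theorem one_side (E : Finset (Fin m × Fin m)) (s : Fin 3) :
    ∑ T, g T * ind E s T ≤ α * E.card := by
  classical
  rw [sum_fib s]
  have h1 : ∀ e : Fin m × Fin m, ∑ k, g (fib s e k) * ind E s (fib s e k) ≤
      if e ∈ E then α else 0 := by
    intro e
    unfold ind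
    simp only [pr_fib]
    split_ifs with he
    · simpa using hα s e
    · simp
  refine (sum_le_sum fun e _ => h1 e).trans (le_of_eq ?_)
  rw [sum_ite_mem, univ_inter, sum_const, nsmul_eq_mul]
  ring

/-- The number of the triangles whose edge of the side `s` is in `E`. -/
theorem count_one (E : Finset (Fin m × Fin m)) (s : Fin 3) :
    ∑ T : Tri m, ind E s T ≤ m * E.card := by
  have := one_side (fun _ : Tri m => (1 : ℝ)) m (fun s e => by simp) E s
  simpa using this

theorem count_two (E E' : Finset (Fin m × Fin m)) {s t : Fin 3} (hst : s ≠ t) :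
    ∑ T : Tri m, ind E s T * ind E' t T ≤ (E.card : ℝ) * E'.card := by
  classical
  have h1 : ∀ T : Tri m, ind E s T * ind E' t T =
      if (pr s T ∈ E ∧ pr t T ∈ E') then (1 : ℝ) else 0 := by
    intro T
    unfold ind
    by_cases h1 : pr s T ∈ E <;> by_cases h2 : pr t T ∈ E' <;> simp [h1, h2]
  rw [sum_congr rfl fun T _ => h1 T, sum_boole]
  have h2 : (univ.filter fun T : Tri m => pr s T ∈ E ∧ pr t T ∈ E').card ≤ (E ×ˢ E').card := by
    refine card_le_card_of_injOn (fun T => (pr s T, pr t T)) ?_ ?_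
    · intro T hT
      have := (mem_filter.1 hT).2
      exact mem_coe.2 (mem_product.2 this)
    · intro T _ T' _ hTT
      obtain ⟨e1, e2⟩ := Prod.mk.inj hTT
      exact pr_inj hst e1 e2
  rw [card_product] at h2
  exact_mod_cast h2

theorem count_three (E0 E1 E2 : Finset (Fin m × Fin m)) :
    ∑ T : Tri m, ind E0 0 T * ind E1 1 T * ind E2 2 T ≤
      √((E0.card : ℝ) * E1.card * E2.card) := by
  classical
  have h1 : ∀ T : Tri m, ind E0 0 T * ind E1 1 T * ind E2 2 T =
      if (pr 0 T ∈ E0 ∧ pr 1 T ∈ E1 ∧ pr 2 T ∈ E2) then (1 : ℝ) else 0 := by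
    intro T
    unfold ind
    by_cases h1 : pr 0 T ∈ E0 <;> by_cases h2 : pr 1 T ∈ E1 <;>
      by_cases h3 : pr 2 T ∈ E2 <;> simp [h1, h2, h3]
  rw [sum_congr rfl fun T _ => h1 T, sum_boole]
  apply Real.le_sqrt_of_sq_le
  have h2 := Pool.Agent.Helper5.UV.card_inTri_sq E0 E1 (E2.image Prod.swap)
  have h3 : (univ.filter fun T : Tri m => pr 0 T ∈ E0 ∧ pr 1 T ∈ E1 ∧ pr 2 T ∈ E2) ⊆
      Pool.Agent.Helper5.UV.inTri E0 E1 (E2.image Prod.swap) := by
    intro T hT
    obtain ⟨-, k0, k1, k2⟩ := mem_filter.1 hT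
    unfold Pool.Agent.Helper5.UV.inTri
    refine mem_filter.2 ⟨mem_univ _, k0, k1, ?_⟩
    exact mem_image.2 ⟨_, k2, rfl⟩
  have h4 := card_le_card h3
  have h5 : (E2.image Prod.swap).card ≤ E2.card := card_image_le
  have h6 : (univ.filter fun T : Tri m => pr 0 T ∈ E0 ∧ pr 1 T ∈ E1 ∧ pr 2 T ∈ E2).card ^ 2 ≤
      E0.card * E1.card * E2.card := by
    calc _ ≤ (Pool.Agent.Helper5.UV.inTri E0 E1 (E2.image Prod.swap)).card ^ 2 :=
          Nat.pow_le_pow_left h4 2
      _ ≤ E0.card * (E1.card * (E2.image Prod.swap).card) := h2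
      _ ≤ E0.card * (E1.card * E2.card) :=
          Nat.mul_le_mul_left _ (Nat.mul_le_mul_left _ h5)
      _ = _ := by ring
  exact_mod_cast h6

/-- The weights. -/
noncomputable def wt (m : ℕ) (α β : ℝ) : ℕ → ℝ
  | 0 => 1
  | 1 => √α
  | 2 => min (β * m) (√β)
  | _ => β

/-- The weighted number of the triangles whose edges of the sides in `J` are marked. -/
noncomputable def PP (E : Fin 3 → Finset (Fin m × Fin m)) (J : Finset (Fin 3)) : ℝ :=
  ∑ T, g T * ∏ s ∈ J, ind (E s) s T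

theorem prod_ind_nonneg (E : Fin 3 → Finset (Fin m × Fin m)) (J : Finset (Fin 3)) (T : Tri m) :
    0 ≤ ∏ s ∈ J, ind (E s) s T := prod_nonneg fun s _ => ind_nonneg _ _ _

theorem prod_ind_le_one (E : Fin 3 → Finset (Fin m × Fin m)) (J : Finset (Fin 3)) (T : Tri m) :
    ∏ s ∈ J, ind (E s) s T ≤ 1 :=
  prod_le_one (fun s _ => ind_nonneg _ _ _) (fun s _ => ind_le_one _ _ _)

include h0 in
theorem PP_nonneg (E : Fin 3 → Finset (Fin m × Fin m)) (J : Finset (Fin 3)) : 0 ≤ PP g E J :=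
  sum_nonneg fun T _ => mul_nonneg (h0 T) (prod_ind_nonneg E J T)

include h0 hF in
theorem PP_le (E : Fin 3 → Finset (Fin m × Fin m)) (J : Finset (Fin 3)) : PP g E J ≤ F :=
  (sum_le_sum fun T _ => mul_le_of_le_one_right (h0 T) (prod_ind_le_one E J T)).trans hF

theorem sqrt_bound {x u v : ℝ} (h1 : x ≤ u) (h2 : x ≤ v) (h0 : 0 ≤ x) : x ≤ √(u * v) := by
  refine Real.le_sqrt_of_sq_le ?_
  nlinarith

theorem sqrt_le_one_add {F : ℝ} (hF : 0 ≤ F) : √F ≤ 1 + F := by
  rw [Real.sqrt_le_left (by linarith)]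
  nlinarith

include h0 hF hα hβ in
theorem PP_bound (hβ0 : 0 ≤ β) (hα0 : 0 ≤ α) (E : Fin 3 → Finset (Fin m × Fin m))
    (a : Fin 3 → ℕ) (ha : ∀ s, (E s).card ≤ a s) (J : Finset (Fin 3)) :
    PP g E J ≤ (wt m α β J.card * ∏ s ∈ J, √(a s : ℝ)) * (1 + F) := by
  have ha' : ∀ s, ((E s).card : ℝ) ≤ a s := fun s => by exact_mod_cast ha s
  have hP := PP_nonneg g h0 E J
  have hPF := PP_le g F h0 hF E J
  have hF0 : 0 ≤ F := hP.trans hPF
  have hm0 : (0 : ℝ) ≤ m := Nat.cast_nonneg m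
  have hJ : J.card = 0 ∨ J.card = 1 ∨ J.card = 2 ∨ J.card = 3 := by
    have : J.card ≤ 3 := by simpa using card_le_univ J
    omega
  rcases hJ with hJ | hJ | hJ | hJ
  · rw [card_eq_zero] at hJ
    subst hJ
    simp only [card_empty, wt, prod_empty, mul_one, one_mul]
    linarith
  · obtain ⟨s, rfl⟩ := card_eq_one.1 hJ
    simp only [card_singleton, wt, prod_singleton]
    have h1 : PP g E {s} ≤ α * a s := by
      have := one_side g α hα (E s) s
      simp only [PP, prod_singleton]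
      exact this.trans (mul_le_mul_of_nonneg_left (ha' s) hα0)
    have h2 := sqrt_bound h1 hPF hP
    rw [Real.sqrt_mul (mul_nonneg hα0 (Nat.cast_nonneg _)), Real.sqrt_mul hα0] at h2
    exact h2.trans (mul_le_mul_of_nonneg_left (sqrt_le_one_add hF0) (by positivity))
  · obtain ⟨s, t, hst, rfl⟩ := card_eq_two.1 hJ
    rw [hJ, prod_pair hst]
    simp only [wt]
    have hPe : PP g E {s, t} = ∑ T, g T * (ind (E s) s T * ind (E t) t T) := by
      simp only [PP, prod_pair hst]
    have hii : ∀ T, 0 ≤ ind (E s) s T * ind (E t) t T := fun T =>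
      mul_nonneg (ind_nonneg _ _ _) (ind_nonneg _ _ _)
    have hgen : PP g E {s, t} ≤ β * ∑ T, ind (E s) s T * ind (E t) t T := by
      rw [hPe, mul_sum]
      exact sum_le_sum fun T _ => mul_le_mul_of_nonneg_right (hβ T) (hii T)
    have h1 : PP g E {s, t} ≤ β * (m * a s) := by
      refine hgen.trans (mul_le_mul_of_nonneg_left ?_ hβ0)
      refine (sum_le_sum fun T _ => mul_le_of_le_one_right (ind_nonneg _ _ _)
        (ind_le_one _ _ _)).trans ((count_one (E s) s).trans ?_)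
      exact mul_le_mul_of_nonneg_left (ha' s) hm0
    have h2 : PP g E {s, t} ≤ β * (m * a t) := by
      refine hgen.trans (mul_le_mul_of_nonneg_left ?_ hβ0)
      refine (sum_le_sum fun T _ => mul_le_of_le_one_left (ind_nonneg _ _ _)
        (ind_le_one _ _ _)).trans ((count_one (E t) t).trans ?_)
      exact mul_le_mul_of_nonneg_left (ha' t) hm0
    have h3 : PP g E {s, t} ≤ β * (a s * a t) := by
      refine hgen.trans (mul_le_mul_of_nonneg_left ?_ hβ0)
      exact (count_two (E s) (E t) hst).trans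
        (mul_le_mul (ha' s) (ha' t) (Nat.cast_nonneg _) (Nat.cast_nonneg _))
    have h4 : PP g E {s, t} ≤ β * m * (√(a s : ℝ) * √(a t : ℝ)) := by
      have := sqrt_bound h1 h2 hP
      have e : β * (m * a s) * (β * (m * a t)) = (β * m) ^ 2 * ((a s : ℝ) * a t) := by ring
      rw [e, Real.sqrt_mul (by positivity), Real.sqrt_sq (by positivity),
        Real.sqrt_mul (Nat.cast_nonneg _)] at this
      exact this
    have h5 : PP g E {s, t} ≤ √β * (√(a s : ℝ) * √(a t : ℝ)) * √F := by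
      have := sqrt_bound h3 hPF hP
      rw [Real.sqrt_mul (by positivity), Real.sqrt_mul hβ0, Real.sqrt_mul (Nat.cast_nonneg _)] at this
      exact this
    rcases le_total (β * m) (√β) with hle | hle
    · rw [min_eq_left hle]
      refine h4.trans (le_mul_of_one_le_right (by positivity) (by linarith))
    · rw [min_eq_right hle]
      exact h5.trans (mul_le_mul_of_nonneg_left (sqrt_le_one_add hF0) (by positivity))
  · have hu : J = univ := (card_eq_iff_eq_univ J).1 (by simpa using hJ)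
    subst hu
    rw [hJ, Fin.prod_univ_three]
    simp only [wt]
    have hPe : PP g E univ = ∑ T, g T * (ind (E 0) 0 T * ind (E 1) 1 T * ind (E 2) 2 T) := by
      simp only [PP, Fin.prod_univ_three]
    have h1 : PP g E univ ≤ β * √((a 0 : ℝ) * a 1 * a 2) := by
      rw [hPe]
      calc _ ≤ ∑ T, β * (ind (E 0) 0 T * ind (E 1) 1 T * ind (E 2) 2 T) :=
            sum_le_sum fun T _ => mul_le_mul_of_nonneg_right (hβ T)
              (mul_nonneg (mul_nonneg (ind_nonneg _ _ _) (ind_nonneg _ _ _)) (ind_nonneg _ _ _))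
        _ = β * ∑ T, ind (E 0) 0 T * ind (E 1) 1 T * ind (E 2) 2 T := by rw [mul_sum]
        _ ≤ β * √(((E 0).card : ℝ) * (E 1).card * (E 2).card) :=
            mul_le_mul_of_nonneg_left (count_three _ _ _) hβ0
        _ ≤ _ := by
            refine mul_le_mul_of_nonneg_left (Real.sqrt_le_sqrt ?_) hβ0
            exact mul_le_mul (mul_le_mul (ha' 0) (ha' 1) (Nat.cast_nonneg _) (Nat.cast_nonneg _))
              (ha' 2) (Nat.cast_nonneg _) (by positivity)
    rw [Real.sqrt_mul (by positivity), Real.sqrt_mul (Nat.cast_nonneg _)] at h1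
    exact h1.trans (le_mul_of_one_le_right (by positivity) (by linarith))

end one

/-! ### Four parts -/

/-- The sides that are served by the part `q`. -/
def JJ (x : Fin 3 → Fin 4) (q : Fin 4) : Finset (Fin 3) := univ.filter fun s => x s = q

theorem types : ∀ x : Fin 3 → Fin 4, ((JJ x 0).card, (JJ x 1).card, (JJ x 2).card, (JJ x 3).card) ∈
    ([(3, 0, 0, 0), (0, 3, 0, 0), (0, 0, 3, 0), (0, 0, 0, 3),
      (2, 1, 0, 0), (2, 0, 1, 0), (2, 0, 0, 1), (1, 2, 0, 0), (0, 2, 1, 0), (0, 2, 0, 1),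
      (1, 0, 2, 0), (0, 1, 2, 0), (0, 0, 2, 1), (1, 0, 0, 2), (0, 1, 0, 2), (0, 0, 1, 2),
      (1, 1, 1, 0), (1, 1, 0, 1), (1, 0, 1, 1), (0, 1, 1, 1)] : List (ℕ × ℕ × ℕ × ℕ)) := by
  decide

theorem wt_prod (m : ℕ) (α β B : ℝ) (h3 : β ≤ B) (h21 : min (β * m) (√β) * √α ≤ B)
    (h111 : √α * √α * √α ≤ B) (x : Fin 3 → Fin 4) : ∏ q, wt m α β (JJ x q).card ≤ B := by
  rw [Fin.prod_univ_four]
  have := types x
  simp only [List.mem_cons, List.not_mem_nil, or_false, Prod.mk.injEq] at this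
  rcases this with h | h | h | h | h | h | h | h | h | h | h | h | h | h | h | h | h | h | h | h <;>
    obtain ⟨e0, e1, e2, e3⟩ := h <;> rw [e0, e1, e2, e3] <;> simp only [wt, one_mul, mul_one] <;>
    first
      | exact h3
      | exact h21
      | exact h111
      | (rw [mul_comm]; exact h21)

open Classical in
theorem meet_core {m : ℕ} (g : Fin 4 → Tri m → ℝ) (F : Fin 4 → ℝ) (α β B : ℝ)
    (h0 : ∀ q T, 0 ≤ g q T) (hF : ∀ q, ∑ T, g q T ≤ F q)
    (hα : ∀ q s e, ∑ k, g q (fib s e k) ≤ α) (hβ : ∀ q T, g q T ≤ β) (hβ0 : 0 ≤ β) (hα0 : 0 ≤ α)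
    (h3 : β ≤ B) (h21 : min (β * m) (√β) * √α ≤ B) (h111 : √α * √α * √α ≤ B)
    (E : Fin 4 → Fin 3 → Finset (Fin m × Fin m)) (a : Fin 3 → ℕ) (ha : ∀ q s, (E q s).card ≤ a s) :
    ∑ T : Fin 4 → Tri m, (∏ q, g q (T q)) * (if (∀ s, ∃ q, pr s (T q) ∈ E q s) then 1 else 0) ≤
      64 * B * (∏ s, √(a s : ℝ)) * ∏ q, (1 + F q) := by
  have hF0 : ∀ q, 0 ≤ F q := fun q => (sum_nonneg fun T _ => h0 q T).trans (hF q)
  have hfw : ∀ (x : Fin 3 → Fin 4) (f : Fin 4 → Fin 3 → ℝ),
      ∏ s, f (x s) s = ∏ q, ∏ s ∈ JJ x q, f q s := by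
    intro x f
    rw [← prod_fiberwise univ x]
    refine prod_congr rfl fun q _ => prod_congr rfl fun s hs => ?_
    rw [(mem_filter.1 hs).2]
  have h1 : ∀ T : Fin 4 → Tri m, (∏ q, g q (T q)) *
      (if (∀ s, ∃ q, pr s (T q) ∈ E q s) then 1 else 0) ≤
      ∑ x : Fin 3 → Fin 4, ∏ q, (g q (T q) * ∏ s ∈ JJ x q, ind (E q s) s (T q)) := by
    intro T
    have hterm : ∀ x : Fin 3 → Fin 4, 0 ≤ ∏ q, (g q (T q) * ∏ s ∈ JJ x q, ind (E q s) s (T q)) :=
      fun x => prod_nonneg fun q _ => mul_nonneg (h0 q _) (prod_ind_nonneg _ _ _)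
    split_ifs with hm
    · choose x hx using hm
      refine le_trans (le_of_eq ?_) (single_le_sum (fun x _ => hterm x) (mem_univ x))
      rw [mul_one, prod_mul_distrib, ← hfw x (fun q s => ind (E q s) s (T q))]
      have : ∏ s, ind (E (x s) s) s (T (x s)) = 1 := by
        refine prod_eq_one fun s _ => ?_
        unfold ind
        rw [if_pos (hx s)]
      rw [this, mul_one]
    · rw [mul_zero]
      exact sum_nonneg fun x _ => hterm x
  have h2 : ∀ x : Fin 3 → Fin 4, ∑ T : Fin 4 → Tri m,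
      ∏ q, (g q (T q) * ∏ s ∈ JJ x q, ind (E q s) s (T q)) =
      ∏ q, PP (g q) (E q) (JJ x q) := by
    intro x
    have h := Finset.prod_univ_sum (fun _ : Fin 4 => (univ : Finset (Tri m)))
      (fun q T => g q T * ∏ s ∈ JJ x q, ind (E q s) s T)
    rw [Fintype.piFinset_univ] at h
    exact h.symm
  have h4 : ∀ x : Fin 3 → Fin 4, ∏ q, PP (g q) (E q) (JJ x q) ≤
      B * (∏ s, √(a s : ℝ)) * ∏ q, (1 + F q) := by
    intro x
    calc ∏ q, PP (g q) (E q) (JJ x q)
        ≤ ∏ q, ((wt m α β (JJ x q).card * ∏ s ∈ JJ x q, √(a s : ℝ)) * (1 + F q)) :=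
          prod_le_prod (fun q _ => PP_nonneg (g q) (h0 q) (E q) _) (fun q _ =>
            PP_bound (g q) (F q) α β (h0 q) (hF q) (hα q) (hβ q) hβ0 hα0 (E q) a (ha q) _)
      _ = (∏ q, wt m α β (JJ x q).card) * (∏ s, √(a s : ℝ)) * ∏ q, (1 + F q) := by
          rw [prod_mul_distrib, prod_mul_distrib, hfw x (fun _ s => √(a s : ℝ))]
      _ ≤ _ := by
          refine mul_le_mul_of_nonneg_right (mul_le_mul_of_nonneg_right
            (wt_prod m α β B h3 h21 h111 x) (prod_nonneg fun s _ => Real.sqrt_nonneg _))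
            (prod_nonneg fun q _ => by have := hF0 q; linarith)
  calc _ ≤ ∑ T : Fin 4 → Tri m, ∑ x : Fin 3 → Fin 4,
        ∏ q, (g q (T q) * ∏ s ∈ JJ x q, ind (E q s) s (T q)) := sum_le_sum fun T _ => h1 T
    _ = ∑ x : Fin 3 → Fin 4, ∏ q, PP (g q) (E q) (JJ x q) := by
        rw [sum_comm]
        exact sum_congr rfl fun x _ => h2 x
    _ ≤ ∑ _x : Fin 3 → Fin 4, B * (∏ s, √(a s : ℝ)) * ∏ q, (1 + F q) :=
        sum_le_sum fun x _ => h4 x
    _ = _ := by
        rw [sum_const, card_univ, Fintype.card_fun, Fintype.card_fin, Fintype.card_fin,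
          nsmul_eq_mul]
        norm_num
        ring

theorem numeric (m h K : ℝ) (hm : 0 < m) (hh : 1 ≤ h) (hK : 1 ≤ K) (hKm : K ≤ m ^ 3) :
    min (h * K / m ^ 3 * m) (√(h * K / m ^ 3)) * √(h * (m + K) / m ^ 3) ≤ 8 * h ^ 3 * K / m ^ 3 ∧
    √(h * (m + K) / m ^ 3) * √(h * (m + K) / m ^ 3) * √(h * (m + K) / m ^ 3) ≤
      8 * h ^ 3 * K / m ^ 3 := by
  have hh0 : 0 < h := by linarith
  have hK0 : 0 < K := by linarith
  have hh2 : 2 * h ^ 2 ≤ 8 * h ^ 3 := by nlinarith [mul_pos hh0 hh0]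
  have hB : 2 * h ^ 2 * K / m ^ 3 ≤ 8 * h ^ 3 * K / m ^ 3 :=
    div_le_div_of_nonneg_right (mul_le_mul_of_nonneg_right hh2 hK0.le) (by positivity)
  have hmin0 : 0 ≤ min (h * K / m ^ 3 * m) (√(h * K / m ^ 3)) :=
    le_min (by positivity) (Real.sqrt_nonneg _)
  obtain ⟨r, hr0, hr, hmr, hrr⟩ : ∃ r : ℝ, 0 ≤ r ∧ √(h * (m + K) / m ^ 3) ≤ r ∧
      min (h * K / m ^ 3 * m) (√(h * K / m ^ 3)) * r ≤ 8 * h ^ 3 * K / m ^ 3 ∧
      r * r * r ≤ 8 * h ^ 3 * K / m ^ 3 := by
    rcases le_total K m with hc | hc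
    · refine ⟨2 * h / m, by positivity, ?_, ?_, ?_⟩
      · rw [Real.sqrt_le_left (by positivity), div_pow, div_le_div_iff₀ (by positivity)
          (by positivity)]
        have h1 : h * (m + K) ≤ h * (2 * m) := mul_le_mul_of_nonneg_left (by linarith) hh0.le
        have h2 : h * (2 * m) ≤ (2 * h) ^ 2 * m := by nlinarith [mul_pos hh0 hm]
        calc h * (m + K) * m ^ 2 ≤ (2 * h) ^ 2 * m * m ^ 2 :=
              mul_le_mul_of_nonneg_right (h1.trans h2) (by positivity)
          _ = (2 * h) ^ 2 * m ^ 3 := by ring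
      · refine (mul_le_mul_of_nonneg_right (min_le_left _ _) (by positivity)).trans ?_
        refine le_trans (le_of_eq ?_) hB
        field_simp
      · have h1 : 2 * h / m * (2 * h / m) * (2 * h / m) = 8 * h ^ 3 * 1 / m ^ 3 := by
          field_simp
          ring
        rw [h1]
        exact div_le_div_of_nonneg_right (mul_le_mul_of_nonneg_left hK (by positivity))
          (by positivity)
    · have hρ : √(K / m ^ 3) ^ 2 = K / m ^ 3 := Real.sq_sqrt (by positivity)
      have hρ0 : 0 ≤ √(K / m ^ 3) := Real.sqrt_nonneg _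
      have hρ1 : √(K / m ^ 3) ≤ 1 := by
        rw [Real.sqrt_le_left zero_le_one, one_pow, div_le_one (by positivity)]
        exact hKm
      set ρ : ℝ := √(K / m ^ 3) with hρd
      have hKρ : K / m ^ 3 = ρ ^ 2 := hρ.symm
      have eβ : h * K / m ^ 3 = h * ρ ^ 2 := by rw [← hKρ]; ring
      have eB : 8 * h ^ 3 * K / m ^ 3 = 8 * h ^ 3 * ρ ^ 2 := by rw [← hKρ]; ring
      have eα : h * (m + K) / m ^ 3 ≤ 2 * h * ρ ^ 2 := by
        rw [← hKρ]
        have : h * (m + K) / m ^ 3 ≤ h * (2 * K) / m ^ 3 :=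
          div_le_div_of_nonneg_right (mul_le_mul_of_nonneg_left (by linarith) hh0.le)
            (by positivity)
        refine this.trans (le_of_eq ?_)
        ring
      refine ⟨2 * h * ρ, by positivity, ?_, ?_, ?_⟩
      · rw [Real.sqrt_le_left (by positivity)]
        refine eα.trans ?_
        have : 2 * h * ρ ^ 2 ≤ 2 * h * ρ ^ 2 * (2 * h) :=
          le_mul_of_one_le_right (by positivity) (by linarith)
        refine this.trans (le_of_eq (by ring))
      · rw [eβ, eB]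
        have h1 : √(h * ρ ^ 2) ≤ h * ρ := by
          rw [Real.sqrt_le_left (by positivity)]
          have : h * ρ ^ 2 ≤ h * ρ ^ 2 * h := le_mul_of_one_le_right (by positivity) hh
          exact this.trans (le_of_eq (by ring))
        calc min (h * ρ ^ 2 * m) (√(h * ρ ^ 2)) * (2 * h * ρ) ≤ h * ρ * (2 * h * ρ) :=
              mul_le_mul_of_nonneg_right ((min_le_right _ _).trans h1) (by positivity)
          _ = 2 * h ^ 2 * ρ ^ 2 := by ring
          _ ≤ 8 * h ^ 3 * ρ ^ 2 := mul_le_mul_of_nonneg_right hh2 (by positivity)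
      · rw [eB]
        calc 2 * h * ρ * (2 * h * ρ) * (2 * h * ρ) = 8 * h ^ 3 * ρ ^ 2 * ρ := by ring
          _ ≤ 8 * h ^ 3 * ρ ^ 2 := mul_le_of_le_one_right (by positivity) hρ1
  refine ⟨(mul_le_mul_of_nonneg_left hr hmin0).trans hmr, le_trans ?_ hrr⟩
  have hs := Real.sqrt_nonneg (h * (m + K) / m ^ 3)
  exact mul_le_mul (mul_le_mul hr hr hs hr0) hr hs (mul_nonneg hr0 hr0)

open Classical in
theorem meet_sqrt {m : ℕ} (hm : 0 < m) (g : Fin 4 → Tri m → ℝ) (F : Fin 4 → ℝ) (h K : ℝ)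
    (hh : 1 ≤ h) (hK : 1 ≤ K)
    (h0 : ∀ q T, 0 ≤ g q T) (hF : ∀ q, ∑ T, g q T ≤ F q)
    (hg : ∀ q T, g q T ≤ h * K / (m : ℝ) ^ 3)
    (h01 : ∀ q i j, ∑ k, g q (i, j, k) ≤ h * (m + K) / (m : ℝ) ^ 3)
    (h12 : ∀ q j k, ∑ i, g q (i, j, k) ≤ h * (m + K) / (m : ℝ) ^ 3)
    (h02 : ∀ q i k, ∑ j, g q (i, j, k) ≤ h * (m + K) / (m : ℝ) ^ 3)
    (A B C : Fin 4 → Fin m → Fin m → Prop)
    (a b c : ℕ) (ha : ∀ q, (univ.filter fun e : Fin m × Fin m => A q e.1 e.2).card ≤ a)
    (hb : ∀ q, (univ.filter fun e : Fin m × Fin m => B q e.1 e.2).card ≤ b)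
    (hc : ∀ q, (univ.filter fun e : Fin m × Fin m => C q e.1 e.2).card ≤ c) :
    ∑ T : Fin 4 → Tri m, (∏ q, g q (T q)) * (if Meets A B C T then 1 else 0) ≤
      512 * h ^ 3 * K * √((a : ℝ) * b * c) / (m : ℝ) ^ 3 * ∏ q, (1 + F q) := by
  have hm0 : (0 : ℝ) < m := by exact_mod_cast hm
  have hF0 : ∀ q, 0 ≤ F q := fun q => (sum_nonneg fun T _ => h0 q T).trans (hF q)
  have hprodF : 0 ≤ ∏ q, (1 + F q) := prod_nonneg fun q _ => by have := hF0 q; linarith
  by_cases hKm : K ≤ (m : ℝ) ^ 3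
  · let E : Fin 4 → Fin 3 → Finset (Fin m × Fin m) := fun q s =>
      match s with
      | 0 => univ.filter fun e : Fin m × Fin m => A q e.1 e.2
      | 1 => univ.filter fun e : Fin m × Fin m => B q e.1 e.2
      | 2 => univ.filter fun e : Fin m × Fin m => C q e.1 e.2
    have key := meet_core g F (h * (m + K) / (m : ℝ) ^ 3) (h * K / (m : ℝ) ^ 3)
      (8 * h ^ 3 * K / (m : ℝ) ^ 3) h0 hF ?_ hg (by positivity) (by positivity) ?_ ?_ ?_ E
      ![a, b, c] ?_
    · have e1 : ∀ T : Fin 4 → Tri m, (∀ s, ∃ q, pr s (T q) ∈ E q s) ↔ Meets A B C T := by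
        intro T
        rw [Fin.forall_fin_succ, Fin.forall_fin_succ, Fin.forall_fin_succ]
        simp only [Meets, E, pr, mem_filter, mem_univ, true_and,
          Fin.succ_zero_eq_one, Fin.succ_one_eq_two, IsEmpty.forall_iff, and_true]
      simp only [e1] at key
      refine key.trans (le_of_eq ?_)
      rw [Fin.prod_univ_three]
      simp only [Matrix.cons_val_zero, Matrix.cons_val_one, Matrix.cons_val]
      rw [Real.sqrt_mul (by positivity), Real.sqrt_mul (Nat.cast_nonneg _)]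
      ring
    · intro q s e
      fin_cases s
      · exact h01 q e.1 e.2
      · exact h12 q e.1 e.2
      · exact h02 q e.1 e.2
    · have h1 : h ≤ 8 * h ^ 3 := by nlinarith [mul_self_nonneg (h - 1), mul_self_nonneg h]
      have h2 : h * K ≤ 8 * h ^ 3 * K := mul_le_mul_of_nonneg_right h1 (by linarith)
      exact div_le_div_of_nonneg_right h2 (by positivity)
    · exact (numeric m h K hm0 hh hK hKm).1
    · exact (numeric m h K hm0 hh hK hKm).2
    · intro q s
      fin_cases s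
      · exact ha q
      · exact hb q
      · exact hc q
  · push Not at hKm
    by_cases hz : a = 0 ∨ b = 0 ∨ c = 0
    · have hno : ∀ T : Fin 4 → Tri m, ¬ Meets A B C T := by
        rintro T ⟨⟨q1, k1⟩, ⟨q2, k2⟩, ⟨q3, k3⟩⟩
        rcases hz with hz | hz | hz
        · have := ha q1
          rw [hz, Nat.le_zero, card_eq_zero, filter_eq_empty_iff] at this
          exact this (mem_univ ((T q1).1, (T q1).2.1)) k1
        · have := hb q2
          rw [hz, Nat.le_zero, card_eq_zero, filter_eq_empty_iff] at this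
          exact this (mem_univ ((T q2).2.1, (T q2).2.2)) k2
        · have := hc q3
          rw [hz, Nat.le_zero, card_eq_zero, filter_eq_empty_iff] at this
          exact this (mem_univ ((T q3).1, (T q3).2.2)) k3
      simp only [hno, if_false, mul_zero, sum_const_zero]
      positivity
    · push Not at hz
      obtain ⟨za, zb, zc⟩ := hz
      have h1 : (1 : ℝ) ≤ √((a : ℝ) * b * c) := by
        rw [Real.one_le_sqrt]
        have : 1 ≤ a * b * c := Nat.one_le_iff_ne_zero.2 (mul_ne_zero (mul_ne_zero za zb) zc)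
        exact_mod_cast this
      have h2 : (1 : ℝ) ≤ K / (m : ℝ) ^ 3 := by
        rw [one_le_div (by positivity)]
        exact hKm.le
      have h3 : (1 : ℝ) ≤ 512 * h ^ 3 := by
        have : (1 : ℝ) ≤ h ^ 3 := one_le_pow₀ hh
        linarith
      have h4 : (1 : ℝ) ≤ 512 * h ^ 3 * K * √((a : ℝ) * b * c) / (m : ℝ) ^ 3 := by
        have : 512 * h ^ 3 * K * √((a : ℝ) * b * c) / (m : ℝ) ^ 3 =
            512 * h ^ 3 * (K / (m : ℝ) ^ 3) * √((a : ℝ) * b * c) := by ring
        rw [this]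
        exact one_le_mul_of_one_le_of_one_le (one_le_mul_of_one_le_of_one_le h3 h2) h1
      have h5 : ∑ T : Fin 4 → Tri m, (∏ q, g q (T q)) * (if Meets A B C T then 1 else 0) ≤
          ∏ q, (1 + F q) := by
        calc _ ≤ ∑ T : Fin 4 → Tri m, ∏ q, g q (T q) := by
              refine sum_le_sum fun T _ => mul_le_of_le_one_right
                (prod_nonneg fun q _ => h0 q _) ?_
              split_ifs <;> norm_num
          _ = ∏ q, ∑ T, g q T := by
              have h := Finset.prod_univ_sum (fun _ : Fin 4 => (univ : Finset (Tri m)))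
                (fun q T => g q T)
              rw [Fintype.piFinset_univ] at h
              exact h.symm
          _ ≤ ∏ q, (1 + F q) := prod_le_prod (fun q _ => sum_nonneg fun T _ => h0 q T)
              (fun q _ => by have := hF q; linarith)
      exact h5.trans (le_mul_of_one_le_left hprodF h4)

end Pool.Agent.Helper21.DG
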