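import Pool.Agent.Helper94.DG.Defs2
import Pool.Agent.Helper21.DG.Cancel

/-!
# Digests and adaptive voters: the corners at one leaf
-/

set_option autoImplicit false

open Finset

namespace Pool.Agent.Helper21.DG

open Pool.Agent.Helper22.ETModel Pool.Agent.Helper8.VT Pool.Agent.Helper53.TC5
open Pool.Agent.Helper94.DG

/-! ### Probes and cells -/

theorem side_insert {n : ℕ} {p q : ℕ} (hpq : p < q) (Q : Finset (Fin n × Fin n)) (i j : Fin n) :
    side p q (insert (i, j) Q) ≤ side p q Q + if Side p q i j then 1 else 0 := by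
  classical
  unfold side
  by_cases h1 : (i : ℕ) % 3 = p ∧ (j : ℕ) % 3 = q
  · rw [if_pos (show Side p q i j from Or.inl h1)]
    refine (card_le_card ?_).trans (card_insert_le (i, j) _)
    intro c hc
    obtain ⟨-, hc1, hc2, hc3⟩ := mem_filter.1 hc
    rw [mem_insert, mem_filter]
    rcases hc3 with hc3 | hc3
    · rcases mem_insert.1 hc3 with hc3 | hc3
      · exact Or.inl hc3
      · exact Or.inr ⟨mem_univ _, hc1, hc2, Or.inl hc3⟩
    · rcases mem_insert.1 hc3 with hc3 | hc3
      · exfalso
        have e1 : c.2 = i := (Prod.mk.inj hc3).1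
        rw [e1] at hc2
        omega
      · exact Or.inr ⟨mem_univ _, hc1, hc2, Or.inr hc3⟩
  · by_cases h2 : (i : ℕ) % 3 = q ∧ (j : ℕ) % 3 = p
    · rw [if_pos (show Side p q i j from Or.inr h2)]
      refine (card_le_card ?_).trans (card_insert_le (j, i) _)
      intro c hc
      obtain ⟨-, hc1, hc2, hc3⟩ := mem_filter.1 hc
      rw [mem_insert, mem_filter]
      rcases hc3 with hc3 | hc3
      · rcases mem_insert.1 hc3 with hc3 | hc3
        · exfalso
          have e1 : c.1 = i := (Prod.mk.inj hc3).1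
          rw [e1] at hc1
          omega
        · exact Or.inr ⟨mem_univ _, hc1, hc2, Or.inl hc3⟩
      · rcases mem_insert.1 hc3 with hc3 | hc3
        · left
          obtain ⟨e1, e2⟩ := Prod.mk.inj hc3
          exact Prod.ext e2 e1
        · exact Or.inr ⟨mem_univ _, hc1, hc2, Or.inr hc3⟩
    · refine le_trans (card_le_card ?_) (Nat.le_add_right _ _)
      intro c hc
      obtain ⟨-, hc1, hc2, hc3⟩ := mem_filter.1 hc
      refine mem_filter.2 ⟨mem_univ _, hc1, hc2, ?_⟩
      rcases hc3 with hc3 | hc3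
      · rcases mem_insert.1 hc3 with hc3 | hc3
        · exfalso
          obtain ⟨e1, e2⟩ := Prod.mk.inj hc3
          rw [e1] at hc1
          rw [e2] at hc2
          exact h1 ⟨hc1, hc2⟩
        · exact Or.inl hc3
      · rcases mem_insert.1 hc3 with hc3 | hc3
        · exfalso
          obtain ⟨e1, e2⟩ := Prod.mk.inj hc3
          rw [e1] at hc2
          rw [e2] at hc1
          exact h2 ⟨hc2, hc1⟩
        · exact Or.inr hc3

theorem side_empty {n : ℕ} (p q : ℕ) : side p q (∅ : Finset (Fin n × Fin n)) = 0 := by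
  classical
  unfold side
  rw [card_eq_zero, filter_eq_empty_iff]
  rintro c - ⟨-, -, h | h⟩ <;> exact notMem_empty _ h

theorem side_path {n d : ℕ} {p q : ℕ} (hpq : p < q) (_hq : q < 3) (t : Tree n d) (w : Wts n) :
    side p q (path t w) ≤ probes p q t w := by
  induction t with
  | leaf v => simp [path, probes, side_empty]
  | node i j next ih =>
    simp only [path, probes]
    exact (side_insert hpq _ i j).trans (Nat.add_le_add_right (ih (w i j)) _)

/-- The path and the output do not change if the weights on the path do not change. -/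
theorem path_congr {n d : ℕ} (t : Tree n d) (w w' : Wts n)
    (hw : ∀ x y, (x, y) ∈ path t w → w x y = w' x y) :
    path t w = path t w' ∧ t.eval w = t.eval w' := by
  induction t with
  | leaf v => exact ⟨rfl, rfl⟩
  | node i j next ih =>
    simp only [path, Tree.eval] at hw ⊢
    have h1 : w i j = w' i j := hw i j (mem_insert_self _ _)
    have h2 := ih (w i j) (fun x y hxy => hw x y (mem_insert_of_mem hxy))
    rw [← h1]
    exact ⟨by rw [h2.1], h2.2⟩

/-! ### The corners of the cube -/

section

variable {m L n : ℕ} (h : 12 * m ≤ n)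

/-- The planted cell of the side `s` in the part `q`. -/
def pcell (D : Fin 4 → Data m L) (s : Fin 3) (q : Fin 4) : Fin n × Fin n :=
  match s with
  | 0 => (vtx h 0 q (D q).2.1.1, vtx h 1 q (D q).2.1.2.1)
  | 1 => (vtx h 1 q (D q).2.1.2.1, vtx h 2 q (D q).2.1.2.2)
  | 2 => (vtx h 0 q (D q).2.1.1, vtx h 2 q (D q).2.1.2.2)

/-- The set `Q` misses all the planted cells of the side `s`. -/
def Miss (D : Fin 4 → Data m L) (Q : Finset (Fin n × Fin n)) (s : Fin 3) : Prop :=
  ∀ q, ¬ Has Q (pcell h D s q).1 (pcell h D s q).2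

theorem agree (D : Fin 4 → Data m L) (Q : Finset (Fin n × Fin n)) (v v' : Fin 3 → Bool)
    (hv : ∀ s, v s = v' s ∨ Miss h D Q s) (x y : Fin n)
    (hxy : Has Q x y ∨ (x : ℕ) % 3 = (y : ℕ) % 3) :
    (inst n (cube v D)).wt x y = (inst n (cube v' D)).wt x y := by
  have exact1 : ∀ x y : Fin n, (x : ℕ) % 3 ≤ (y : ℕ) % 3 → (Has Q x y ∨ (x : ℕ) % 3 = (y : ℕ) % 3) →
      wgt (cube v D) x y = wgt (cube v' D) x y := by
    intro x y hxy hQ
    rcases wgt_cases L h x y hxy with hc | ⟨q, i, j, hc | hc | hc⟩
    · rw [hc, hc]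
    · obtain ⟨hx, hy, hc⟩ := hc
      have hx3 : (x : ℕ) % 3 = 0 := by rw [hx]; simp only [vtx]; simp; omega
      have hy3 : (y : ℕ) % 3 = 1 := by rw [hy]; simp only [vtx]; simp; omega
      have hQ' : Has Q x y := by rcases hQ with hQ | hQ; exacts [hQ, by omega]
      rw [hc, hc]
      have : (cube v D q).1 i j = (cube v' D q).1 i j := by
        apply corner_off1
        rcases hv 0 with h0 | h0
        · left; simp only [h0]
        · right
          rintro ⟨rfl, rfl⟩
          exact h0 q (by rw [hx, hy] at hQ'; exact hQ')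
      rw [this]
    · obtain ⟨hx, hy, hc⟩ := hc
      have hx3 : (x : ℕ) % 3 = 1 := by rw [hx]; simp only [vtx]; simp; omega
      have hy3 : (y : ℕ) % 3 = 2 := by rw [hy]; simp only [vtx]; simp; omega
      have hQ' : Has Q x y := by rcases hQ with hQ | hQ; exacts [hQ, by omega]
      rw [hc, hc]
      have : (cube v D q).2.1 i j = (cube v' D q).2.1 i j := by
        apply corner_off2
        rcases hv 1 with h1 | h1
        · left; simp only [h1]
        · right
          rintro ⟨rfl, rfl⟩
          exact h1 q (by rw [hx, hy] at hQ'; exact hQ')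
      rw [this]
    · obtain ⟨hx, hy, hc⟩ := hc
      have hx3 : (x : ℕ) % 3 = 0 := by rw [hx]; simp only [vtx]; simp; omega
      have hy3 : (y : ℕ) % 3 = 2 := by rw [hy]; simp only [vtx]; simp; omega
      have hQ' : Has Q x y := by rcases hQ with hQ | hQ; exacts [hQ, by omega]
      rw [hc, hc]
      have : (cube v D q).2.2 i j = (cube v' D q).2.2 i j := by
        apply corner_off3
        rcases hv 2 with h2 | h2
        · left; simp only [h2]
        · right
          rintro ⟨rfl, rfl⟩
          exact h2 q (by rw [hx, hy] at hQ'; exact hQ')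
      rw [this]
  simp only [inst]
  by_cases hle : (x : ℕ) % 3 ≤ (y : ℕ) % 3
  · rw [if_pos hle, if_pos hle]
    exact exact1 x y hle hxy
  · rw [if_neg hle, if_neg hle]
    refine exact1 y x (by omega) ?_
    rcases hxy with hxy | hxy
    · exact Or.inl (Or.symm hxy)
    · exact Or.inr hxy.symm

theorem same_digests {K : Fin n → Fin n → ℕ} (δ : ∀ u v : Fin n, ℤ → Fin (K u v))
    (D : Fin 4 → Data m L)
    (hD : ∀ q, mass (fun i j x => (δ (vtx h 0 q i) (vtx h 1 q j) ((x : ℕ) : ℤ) : ℕ))
      (fun i j x => (δ (vtx h 1 q i) (vtx h 2 q j) ((x : ℕ) : ℤ) : ℕ))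
      (fun i j x => (δ (vtx h 0 q i) (vtx h 2 q j) (-((x : ℕ) : ℤ)) : ℕ)) (D q) ≠ 0)
    (v v' : Fin 3 → Bool) (x y : Fin n) (hxy : (x : ℕ) % 3 < (y : ℕ) % 3) :
    δ x y ((inst n (cube v D)).wt x y) = δ x y ((inst n (cube v' D)).wt x y) := by
  simp only [inst, if_pos hxy.le]
  rcases wgt_cases L h x y hxy.le with hc | ⟨q, i, j, hc | hc | hc⟩
  · rw [hc, hc]
  · obtain ⟨hx, hy, hc⟩ := hc
    rw [hc, hc, hx, hy]
    exact Fin.ext (corner_dig _ _ _ (D q) (hD q) _ _ i j).1
  · obtain ⟨hx, hy, hc⟩ := hc
    rw [hc, hc, hx, hy]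
    exact Fin.ext (corner_dig _ _ _ (D q) (hD q) _ _ i j).2.1
  · obtain ⟨hx, hy, hc⟩ := hc
    rw [hc, hc, hx, hy]
    exact Fin.ext (corner_dig _ _ _ (D q) (hD q) _ _ i j).2.2

end

/-- A family of sets of sides, indexed by the corners, in which every odd corner has a nonempty
set, and flipping a corner in the least side of its set changes neither the set nor the value:
then the alternating sum of the values is zero. -/
theorem matching (G : (Fin 3 → Bool) → ℝ) (P : (Fin 3 → Bool) → Fin 3 → Prop)
    (hflip : ∀ v s, P v s → P (Function.update v s (!v s)) = P v ∧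
      G (Function.update v s (!v s)) = G v)
    (hodd : ∀ v, sgn v ≠ 1 → ∃ s, P v s) : ∑ v : Fin 3 → Bool, sgn v * G v = 0 := by
  classical
  let s : (Fin 3 → Bool) → Fin 3 := fun v => if P v 0 then 0 else if P v 1 then 1 else 2
  let g : (Fin 3 → Bool) → (Fin 3 → Bool) := fun v => Function.update v (s v) (!v (s v))
  have hs : ∀ v, (∃ t, P v t) → P v (s v) := by
    rintro v ⟨t, ht⟩
    simp only [s]
    split_ifs with h0 h1
    · exact h0
    · exact h1
    · fin_cases t
      · exact absurd ht h0
      · exact absurd ht h1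
      · exact ht
  have hgP : ∀ v, (∃ t, P v t) → P (g v) = P v := fun v hv => (hflip v _ (hs v hv)).1
  have hgG : ∀ v, (∃ t, P v t) → G (g v) = G v := fun v hv => (hflip v _ (hs v hv)).2
  have hgs : ∀ v, (∃ t, P v t) → s (g v) = s v := by
    intro v hv
    simp only [s, hgP v hv]
  have hgg : ∀ v, (∃ t, P v t) → g (g v) = v := by
    intro v hv
    have h1 : g (g v) = Function.update (g v) (s (g v)) (!(g v) (s (g v))) := rfl
    rw [h1, hgs v hv]
    funext t
    by_cases ht : t = s v
    · subst ht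
      simp [g]
    · simp [g, Function.update_of_ne ht]
  set dom : Finset (Fin 3 → Bool) := univ.filter fun v => ∃ t, P v t with hdom
  have hmem : ∀ v, v ∈ dom ↔ ∃ t, P v t := fun v => by simp [hdom]
  have inv : ∀ F : (Fin 3 → Bool) → ℝ, (∀ v ∈ dom, F (g v) = F v) →
      ∑ v ∈ dom, sgn v * F v = 0 := by
    intro F hF
    refine Finset.sum_involution (fun v _ => g v) ?_ ?_ ?_ ?_
    · intro v hv
      rw [hF v hv]
      have : sgn (g v) = - sgn v := sgn_update v (s v)
      rw [this]
      ring
    · intro v _ _ heq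
      have := congrFun heq (s v)
      simp [g] at this
    · intro v hv
      rw [hmem] at hv ⊢
      obtain ⟨t, ht⟩ := hv
      exact ⟨t, by rw [hgP v ⟨t, ht⟩]; exact ht⟩
    · intro v hv
      exact hgg v ((hmem v).1 hv)
  have h1 := inv (fun _ => 1) (fun _ _ => rfl)
  have h2 : ∑ v : Fin 3 → Bool, sgn v * (1 : ℝ) = 0 := signed (fun _ => 1) 0 (fun _ => rfl)
  have h3 : ∑ v ∈ univ.filter (fun v : Fin 3 → Bool => ¬ ∃ t, P v t), sgn v * (1 : ℝ) = 0 := by
    have := sum_filter_add_sum_filter_not (univ : Finset (Fin 3 → Bool)) (fun v => ∃ t, P v t)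
      (fun v => sgn v * (1 : ℝ))
    rw [h2, ← hdom, h1, zero_add] at this
    exact this
  have h4 : univ.filter (fun v : Fin 3 → Bool => ¬ ∃ t, P v t) = ∅ := by
    have h5 : ∑ v ∈ univ.filter (fun v : Fin 3 → Bool => ¬ ∃ t, P v t), sgn v * (1 : ℝ) =
        ((univ.filter (fun v : Fin 3 → Bool => ¬ ∃ t, P v t)).card : ℝ) := by
      rw [card_eq_sum_ones, Nat.cast_sum]
      refine sum_congr rfl fun v hv => ?_
      have : sgn v = 1 := by
        by_contra hc
        exact (mem_filter.1 hv).2 (hodd v hc)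
      rw [this]
      norm_num
    rw [h3] at h5
    exact card_eq_zero.1 (by exact_mod_cast h5.symm)
  have h5 : dom = univ := by
    ext v
    simp only [mem_univ, iff_true]
    rw [hmem]
    by_contra hc
    have : v ∈ univ.filter (fun v : Fin 3 → Bool => ¬ ∃ t, P v t) :=
      mem_filter.2 ⟨mem_univ _, hc⟩
    rw [h4] at this
    exact notMem_empty _ this
  have h6 := inv G (fun v hv => hgG v ((hmem v).1 hv))
  rw [h5] at h6
  exact h6

theorem tree_meets {m L n : ℕ} (h : 12 * m ≤ n) (hn : 10 * L ≤ n ^ 300) {K : Fin n → Fin n → ℕ}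
    (δ : ∀ u v : Fin n, ℤ → Fin (K u v)) (H : Inst n → ℝ) {d : ℕ} (t : Wts n → Tree n d)
    (ht : ∀ w w' : Wts n,
      (∀ u v : Fin n, (u : ℕ) % 3 < (v : ℕ) % 3 → δ u v (w u v) = δ u v (w' u v)) →
      (∀ u v : Fin n, (u : ℕ) % 3 = (v : ℕ) % 3 → w u v = w' u v) → t w = t w')
    (hH : ∀ w : Wts n, (⟨flg n, w⟩ : Inst n).Valid → H ⟨flg n, w⟩ = (t w).eval w)
    (D : Fin 4 → Data m L)
    (hD : ∀ q, mass (fun i j x => (δ (vtx h 0 q i) (vtx h 1 q j) ((x : ℕ) : ℤ) : ℕ))
      (fun i j x => (δ (vtx h 1 q i) (vtx h 2 q j) ((x : ℕ) : ℤ) : ℕ))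
      (fun i j x => (δ (vtx h 0 q i) (vtx h 2 q j) (-((x : ℕ) : ℤ)) : ℕ)) (D q) ≠ 0)
    (hne : ∑ v : Fin 3 → Bool, sgn v * H (inst n (cube v D)) ≠ 0) :
    ∃ v : Fin 3 → Bool, sgn v ≠ 1 ∧
      Meets (fun q i j => Has (path (t (inst n (cube v D)).wt) (inst n (cube v D)).wt)
          (vtx h 0 q i) (vtx h 1 q j))
        (fun q i j => Has (path (t (inst n (cube v D)).wt) (inst n (cube v D)).wt)
          (vtx h 1 q i) (vtx h 2 q j))
        (fun q i j => Has (path (t (inst n (cube v D)).wt) (inst n (cube v D)).wt)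
          (vtx h 0 q i) (vtx h 2 q j)) (fun q => (D q).2.1) := by
  by_contra hcon
  push Not at hcon
  apply hne
  have htt : ∀ v v' : Fin 3 → Bool, t (inst n (cube v D)).wt = t (inst n (cube v' D)).wt := by
    intro v v'
    apply ht
    · exact fun x y hxy => same_digests h δ D hD v v' x y hxy
    · intro x y hxy
      have hle : (x : ℕ) % 3 ≤ (y : ℕ) % 3 := hxy.le
      have hne : ∀ S : Fin 4 → Arr m L, wgt S x y = 10 * L := by
        intro S
        unfold wgt
        split_ifs with h0 h1 h2 h3
        · omega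
        · omega
        · omega
        · rfl
        · rfl
      simp only [inst, if_pos hle, hne]
  have hHv : ∀ v : Fin 3 → Bool, H (inst n (cube v D)) =
      (t (inst n (cube v D)).wt).eval (inst n (cube v D)).wt := fun v =>
    hH (inst n (cube v D)).wt (inst_valid hn _)
  refine matching (fun v => H (inst n (cube v D)))
    (fun v => Miss h D (path (t (inst n (cube v D)).wt) (inst n (cube v D)).wt)) ?_ ?_
  · intro v s hs
    set v' := Function.update v s (!v s) with hv'
    have hk := path_congr (t (inst n (cube v D)).wt) (inst n (cube v D)).wt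
      (inst n (cube v' D)).wt (fun x y hxy => agree h D _ v v' (fun s' => by
        by_cases hss : s' = s
        · right; rw [hss]; exact hs
        · left; rw [hv', Function.update_of_ne hss]) x y (Or.inl (Or.inl hxy)))
    rw [htt v v'] at hk
    refine ⟨?_, ?_⟩
    · show Miss h D (path (t (inst n (cube v' D)).wt) (inst n (cube v' D)).wt) =
        Miss h D (path (t (inst n (cube v D)).wt) (inst n (cube v D)).wt)
      rw [← hk.1, htt v v']
    · show H (inst n (cube v' D)) = H (inst n (cube v D))
      rw [hHv v, hHv v', ← hk.2, htt v v']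
  · intro v hv
    have h1 := hcon v hv
    by_contra hc
    push Not at hc
    apply h1
    refine ⟨?_, ?_, ?_⟩
    · have := hc 0
      unfold Miss at this
      push Not at this
      exact this
    · have := hc 1
      unfold Miss at this
      push Not at this
      exact this
    · have := hc 2
      unfold Miss at this
      push Not at this
      exact this

end Pool.Agent.Helper21.DG
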