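import Pool.Agent.Helper21.DG.Cancel

/-!
# Digests: the yes-instances
-/

set_option autoImplicit false

open Finset

namespace Pool.Agent.Helper21.DG

open Pool.Agent.Helper22.ETModel Pool.Agent.Helper8.VT Pool.Agent.Helper53.TC5
open Pool.Agent.Helper94.DG

section

variable {m L n : ℕ} (h : 12 * m ≤ n)

theorem wgt01 (S : Fin 4 → Arr m L) (q : Fin 4) (i j : Fin m) :
    wgt S (vtx h 0 q i) (vtx h 1 q j) = (((S q).1 i j : ℕ) : ℤ) := by
  rcases wgt_cases L h (vtx h 0 q i) (vtx h 1 q j) (by simp only [vtx]; simp; omega) with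
    hc | ⟨q', i', j', hc | hc | hc⟩
  · exfalso
    have hq := q.2
    have hi := i.2
    have hj := j.2
    have hL : 0 < L := by have := ((S q).1 i j).2; omega
    have h2 := hc (fun _ => (fun _ _ => ⟨0, hL⟩, fun _ _ => ⟨0, hL⟩, fun _ _ => ⟨0, by omega⟩))
    rw [wgt, dif_pos (by simp only [vtx]; simp; omega), if_pos (by simp only [vtx]; simp; omega)] at h2
    simp at h2
    omega
  · obtain ⟨hx, hy, hc⟩ := hc
    have hx' := congrArg Fin.val hx
    have hy' := congrArg Fin.val hy
    simp only [vtx] at hx' hy'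
    have hq := q.2
    have hq' := q'.2
    have e1 : q' = q := Fin.ext (by simp at hx' hy'; omega)
    have e2 : i' = i := Fin.ext (by simp at hx' hy'; omega)
    have e3 : j' = j := Fin.ext (by simp at hx' hy'; omega)
    rw [hc, e1, e2, e3]
  · obtain ⟨hx, hy, hc⟩ := hc
    have hz := congrArg Fin.val hx
    simp only [vtx] at hz
    exfalso
    simp at hz
    omega
  · obtain ⟨hx, hy, hc⟩ := hc
    have hz := congrArg Fin.val hy
    simp only [vtx] at hz
    exfalso
    simp at hz
    omega

theorem wgt12 (S : Fin 4 → Arr m L) (q : Fin 4) (i j : Fin m) :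
    wgt S (vtx h 1 q i) (vtx h 2 q j) = (((S q).2.1 i j : ℕ) : ℤ) := by
  rcases wgt_cases L h (vtx h 1 q i) (vtx h 2 q j) (by simp only [vtx]; simp; omega) with
    hc | ⟨q', i', j', hc | hc | hc⟩
  · exfalso
    have hq := q.2
    have hi := i.2
    have hj := j.2
    have hL : 0 < L := by have := ((S q).2.1 i j).2; omega
    have h2 := hc (fun _ => (fun _ _ => ⟨0, hL⟩, fun _ _ => ⟨0, hL⟩, fun _ _ => ⟨0, by omega⟩))
    rw [wgt, dif_pos (by simp only [vtx]; simp; omega), if_neg (by simp only [vtx]; simp; omega),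
      if_pos (by simp only [vtx]; simp; omega)] at h2
    simp at h2
    omega
  · obtain ⟨hx, hy, hc⟩ := hc
    have hz := congrArg Fin.val hx
    simp only [vtx] at hz
    exfalso
    simp at hz
    omega
  · obtain ⟨hx, hy, hc⟩ := hc
    have hx' := congrArg Fin.val hx
    have hy' := congrArg Fin.val hy
    simp only [vtx] at hx' hy'
    have hq := q.2
    have hq' := q'.2
    have e1 : q' = q := Fin.ext (by simp at hx' hy'; omega)
    have e2 : i' = i := Fin.ext (by simp at hx' hy'; omega)
    have e3 : j' = j := Fin.ext (by simp at hx' hy'; omega)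
    rw [hc, e1, e2, e3]
  · obtain ⟨hx, hy, hc⟩ := hc
    have hz := congrArg Fin.val hx
    simp only [vtx] at hz
    exfalso
    simp at hz
    omega

theorem wgt02 (S : Fin 4 → Arr m L) (q : Fin 4) (i j : Fin m) :
    wgt S (vtx h 0 q i) (vtx h 2 q j) = -(((S q).2.2 i j : ℕ) : ℤ) := by
  rcases wgt_cases L h (vtx h 0 q i) (vtx h 2 q j) (by simp only [vtx]; simp; omega) with
    hc | ⟨q', i', j', hc | hc | hc⟩
  · exfalso
    have hq := q.2
    have hi := i.2
    have hj := j.2
    have hL : 0 < L := by have := ((S q).2.2 i j).2; omega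
    have h2 := hc (fun _ => (fun _ _ => ⟨0, hL⟩, fun _ _ => ⟨0, hL⟩, fun _ _ => ⟨0, by omega⟩))
    rw [wgt, dif_pos (by simp only [vtx]; simp; omega), if_neg (by simp only [vtx]; simp; omega),
      if_neg (by simp only [vtx]; simp; omega), if_pos (by simp only [vtx]; simp; omega)] at h2
    simp at h2
    omega
  · obtain ⟨hx, hy, hc⟩ := hc
    have hz := congrArg Fin.val hy
    simp only [vtx] at hz
    exfalso
    simp at hz
    omega
  · obtain ⟨hx, hy, hc⟩ := hc
    have hz := congrArg Fin.val hx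
    simp only [vtx] at hz
    exfalso
    simp at hz
    omega
  · obtain ⟨hx, hy, hc⟩ := hc
    have hx' := congrArg Fin.val hx
    have hy' := congrArg Fin.val hy
    simp only [vtx] at hx' hy'
    have hq := q.2
    have hq' := q'.2
    have e1 : q' = q := Fin.ext (by simp at hx' hy'; omega)
    have e2 : i' = i := Fin.ext (by simp at hx' hy'; omega)
    have e3 : j' = j := Fin.ext (by simp at hx' hy'; omega)
    rw [hc, e1, e2, e3]

/-- A zero triangle, sorted by the classes. -/
theorem yes_sorted (S : Fin 4 → Arr m L) : (inst n S).Yes ↔ ∃ a b c : Fin n, (a : ℕ) % 3 = 0 ∧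
    (b : ℕ) % 3 = 1 ∧ (c : ℕ) % 3 = 2 ∧ wgt S a b + wgt S b c + wgt S a c = 0 := by
  constructor
  · rintro ⟨i, j, k, -, -, -, f1, f2, f3, hs⟩
    simp only [inst, flg, decide_eq_true_eq] at f1 f2 f3 hs
    have hi : (i : ℕ) % 3 < 3 := Nat.mod_lt _ (by norm_num)
    have hj : (j : ℕ) % 3 < 3 := Nat.mod_lt _ (by norm_num)
    have hk : (k : ℕ) % 3 < 3 := Nat.mod_lt _ (by norm_num)
    have hcases : ((i : ℕ) % 3 = 0 ∧ (j : ℕ) % 3 = 1 ∧ (k : ℕ) % 3 = 2) ∨
        ((i : ℕ) % 3 = 0 ∧ (j : ℕ) % 3 = 2 ∧ (k : ℕ) % 3 = 1) ∨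
        ((i : ℕ) % 3 = 1 ∧ (j : ℕ) % 3 = 0 ∧ (k : ℕ) % 3 = 2) ∨
        ((i : ℕ) % 3 = 1 ∧ (j : ℕ) % 3 = 2 ∧ (k : ℕ) % 3 = 0) ∨
        ((i : ℕ) % 3 = 2 ∧ (j : ℕ) % 3 = 0 ∧ (k : ℕ) % 3 = 1) ∨
        ((i : ℕ) % 3 = 2 ∧ (j : ℕ) % 3 = 1 ∧ (k : ℕ) % 3 = 0) := by omega
    rcases hcases with ⟨e1, e2, e3⟩ | ⟨e1, e2, e3⟩ | ⟨e1, e2, e3⟩ | ⟨e1, e2, e3⟩ | ⟨e1, e2, e3⟩ |
      ⟨e1, e2, e3⟩ <;> simp [e1, e2, e3] at hs
    · exact ⟨i, j, k, e1, e2, e3, by linarith⟩
    · exact ⟨i, k, j, e1, e3, e2, by linarith⟩
    · exact ⟨j, i, k, e2, e1, e3, by linarith⟩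
    · exact ⟨k, i, j, e3, e1, e2, by linarith⟩
    · exact ⟨j, k, i, e2, e3, e1, by linarith⟩
    · exact ⟨k, j, i, e3, e2, e1, by linarith⟩
  · rintro ⟨a, b, c, e1, e2, e3, hs⟩
    refine ⟨a, b, c, ?_, ?_, ?_, ?_, ?_, ?_, ?_⟩
    · rintro rfl; omega
    · rintro rfl; omega
    · rintro rfl; omega
    · simp [inst, flg, e1, e2]
    · simp [inst, flg, e2, e3]
    · simp [inst, flg, e1, e3]
    · simp [inst, e1, e2, e3, hs]

end

theorem inst_yes {m L n : ℕ} (h : 12 * m ≤ n) (_hL : 0 < L) (S : Fin 4 → Arr m L) :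
    (inst n S).Yes ↔ ∃ (q : Fin 4) (i j k : Fin m),
      add ((S q).1 i j) ((S q).2.1 j k) = (S q).2.2 i k := by
  rw [yes_sorted]
  constructor
  · rintro ⟨a, b, c, e1, e2, e3, hs⟩
    have hlow : ∀ x y : Fin n, (x : ℕ) % 3 ≤ (y : ℕ) % 3 → -(2 * L : ℤ) < wgt S x y := by
      intro x y hxy
      rcases wgt_cases L h x y hxy with hc | ⟨q, i, j, hc | hc | hc⟩
      · rw [hc]; omega
      · rw [hc.2.2]; omega
      · rw [hc.2.2]; omega
      · rw [hc.2.2]
        have := ((S q).2.2 i j).2
        omega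
    have l1 := hlow a b (by omega)
    have l2 := hlow b c (by omega)
    have l3 := hlow a c (by omega)
    rcases wgt_cases L h a b (by omega) with hc | ⟨q, i, j, hc | hc | hc⟩
    · rw [hc] at hs; omega
    · rcases wgt_cases L h b c (by omega) with hc' | ⟨q', j', k, hc' | hc' | hc'⟩
      · rw [hc'] at hs; omega
      · exfalso
        have := congrArg Fin.val hc'.1
        simp only [vtx] at this
        simp at this
        omega
      · rcases wgt_cases L h a c (by omega) with hc'' | ⟨q'', i', k', hc'' | hc'' | hc''⟩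
        · rw [hc''] at hs; omega
        · exfalso
          have := congrArg Fin.val hc''.2.1
          simp only [vtx] at this
          simp at this
          omega
        · exfalso
          have := congrArg Fin.val hc''.1
          simp only [vtx] at this
          simp at this
          omega
        · obtain ⟨ha, hb, hc⟩ := hc
          obtain ⟨hb', hk, hc'⟩ := hc'
          obtain ⟨ha', hk', hc''⟩ := hc''
          have q1 := q.2
          have q2 := q'.2
          have q3 := q''.2
          have a1 := congrArg Fin.val (ha.symm.trans ha')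
          have a2 := congrArg Fin.val (hb.symm.trans hb')
          have a3 := congrArg Fin.val (hk.symm.trans hk')
          simp only [vtx] at a1 a2 a3
          simp at a1 a2 a3
          have eq1 : q' = q := Fin.ext (by omega)
          have eq2 : q'' = q := Fin.ext (by omega)
          subst eq1
          subst eq2
          have ei : i' = i := Fin.ext (by omega)
          have ej : j' = j := Fin.ext (by omega)
          have ek : k' = k := Fin.ext (by omega)
          subst ei
          subst ej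
          subst ek
          refine ⟨q'', i', j', k', ?_⟩
          rw [hc, hc', hc''] at hs
          apply Fin.ext
          simp only [add]
          omega
      · exfalso
        have := congrArg Fin.val hc'.1
        simp only [vtx] at this
        simp at this
        omega
    · exfalso
      have := congrArg Fin.val hc.1
      simp only [vtx] at this
      simp at this
      omega
    · exfalso
      have := congrArg Fin.val hc.2.1
      simp only [vtx] at this
      simp at this
      omega
  · rintro ⟨q, i, j, k, hs⟩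
    refine ⟨vtx h 0 q i, vtx h 1 q j, vtx h 2 q k, ?_, ?_, ?_, ?_⟩
    · simp only [vtx]; simp; omega
    · simp only [vtx]; simp; omega
    · simp only [vtx]; simp; omega
    · rw [wgt01 h, wgt12 h, wgt02 h, ← hs]
      simp only [add]
      push_cast
      ring

end Pool.Agent.Helper21.DG
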